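import Pool.Agent.Y119.HG.Defs

/-!
# The adjoint of an endomorphism; the characteristic polynomial

Jobs HG-ADJ and HG-CHP of helper119, done by helper467.
-/

set_option autoImplicit false

open Matrix

namespace Pool.Agent.Y467.HG

open Pool.Agent.Y119.HG

theorem om_sq (m : ℕ) : Om m ℂ * Om m ℂ = -1 := by
  unfold Om
  rw [fromBlocks_multiply]
  simp [fromBlocks_neg, ← fromBlocks_one]

theorem adj_aux {m n : ℕ} (W : Matrix (S m) (Fin n) ℂ) (W' : Matrix (Fin n) (S m) ℂ)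
    (P Q : Matrix (Fin n) (Fin n) ℂ) (κ : ℂ) (h1 : W * W' = 1) (h2 : W' * W = 1)
    (hP : W * P * Wᵀ = Om m ℂ) (hPQ : P * Q = κ • (1 : Matrix (Fin n) (Fin n) ℂ)) (hκ : κ ≠ 0)
    (a : Matrix (Fin n) (Fin n) ℂ) (B : Matrix (S m) (S m) ℂ) (ha : W * a = B * W) :
    W * (Q⁻¹ * aᵀ * Q) = (-(Om m ℂ * Bᵀ * Om m ℂ)) * W := by
  have hQP : Q * P = κ • (1 : Matrix (Fin n) (Fin n) ℂ) := by
    have e1 : (κ⁻¹ • P) * Q = 1 := by
      rw [smul_mul_assoc, hPQ, smul_smul, inv_mul_cancel₀ hκ, one_smul]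
    have e2 := mul_eq_one_comm.mp e1
    rw [mul_smul_comm] at e2
    have e3 := congrArg (fun M => κ • M) e2
    simpa [smul_smul, hκ] using e3
  have hQi : Q⁻¹ = κ⁻¹ • P := by
    apply Matrix.inv_eq_left_inv
    rw [smul_mul_assoc, hPQ, smul_smul, inv_mul_cancel₀ hκ, one_smul]
  have haW : a = W' * B * W := by
    rw [Matrix.mul_assoc, ← ha, ← Matrix.mul_assoc, h2, Matrix.one_mul]
  have h1t : W'ᵀ * Wᵀ = 1 := by rw [← transpose_mul, h1, transpose_one]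
  have h2t : Wᵀ * W'ᵀ = 1 := by rw [← transpose_mul, h2, transpose_one]
  -- `P = W' Om W'ᵀ`
  have hP' : W * P = Om m ℂ * W'ᵀ := by
    rw [← hP, Matrix.mul_assoc (W * P), h2t, Matrix.mul_one]
  -- `W'ᵀ Q = - κ Om W`
  have hQ' : W'ᵀ * Q = -(κ • (Om m ℂ * W)) := by
    have e1 : Om m ℂ * (W'ᵀ * Q) = κ • W := by
      rw [← Matrix.mul_assoc, ← hP', Matrix.mul_assoc, hPQ, Matrix.mul_smul, Matrix.mul_one]
    have e2 : Om m ℂ * (Om m ℂ * (W'ᵀ * Q)) = -(W'ᵀ * Q) := by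
      rw [← Matrix.mul_assoc, om_sq, Matrix.neg_mul, Matrix.one_mul]
    rw [e1] at e2
    rw [eq_comm, neg_eq_iff_eq_neg] at e2
    rw [e2, Matrix.mul_smul]
  rw [hQi, haW]
  have e3 : (W' * B * W)ᵀ = Wᵀ * Bᵀ * W'ᵀ := by
    rw [transpose_mul, transpose_mul, Matrix.mul_assoc]
  rw [e3]
  calc W * (κ⁻¹ • P * (Wᵀ * Bᵀ * W'ᵀ) * Q)
      = κ⁻¹ • ((W * P * Wᵀ) * Bᵀ * (W'ᵀ * Q)) := by
        simp only [smul_mul_assoc, Matrix.mul_smul, Matrix.mul_assoc]
    _ = _ := by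
        rw [hP, hQ', Matrix.mul_neg, Matrix.mul_smul, smul_neg, smul_smul, inv_mul_cancel₀ hκ, one_smul,
          Matrix.neg_mul, ← Matrix.mul_assoc]

theorem adj_block {m : ℕ} (c b d : Matrix (Fin m) (Fin m) ℂ) :
    -(Om m ℂ * (fromBlocks c 0 b d)ᵀ * Om m ℂ) = fromBlocks dᵀ 0 (-bᵀ) cᵀ := by
  unfold Om
  rw [fromBlocks_transpose, fromBlocks_multiply, fromBlocks_multiply, fromBlocks_neg]
  simp

theorem charpoly_of_conj {m n : ℕ} (W : Matrix (S m) (Fin n) ℂ) (W' : Matrix (Fin n) (S m) ℂ)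
    (h1 : W * W' = 1) (h2 : W' * W = 1) (a : Matrix (Fin n) (Fin n) ℂ) (B : Matrix (S m) (S m) ℂ)
    (ha : W * a = B * W) : a.charpoly = B.charpoly ∧ n = 2 * m := by
  have haW : a = W' * (B * W) := by
    rw [← ha, ← Matrix.mul_assoc, h2, Matrix.one_mul]
  have hn : n = 2 * m := by
    have e1 : Matrix.trace (W' * W) = Matrix.trace (W * W') := Matrix.trace_mul_comm _ _
    rw [h1, h2, Matrix.trace_one, Matrix.trace_one, Fintype.card_fin, Fintype.card_sum,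
      Fintype.card_fin] at e1
    have : n = m + m := by exact_mod_cast e1
    omega
  refine ⟨?_, hn⟩
  have hle : Fintype.card (S m) ≤ Fintype.card (Fin n) := by
    rw [Fintype.card_sum, Fintype.card_fin, Fintype.card_fin]; omega
  have hz : Fintype.card (Fin n) - Fintype.card (S m) = 0 := by
    rw [Fintype.card_sum, Fintype.card_fin, Fintype.card_fin]; omega
  rw [haW, Matrix.charpoly_mul_comm_of_le _ _ hle, hz, pow_zero, one_mul, Matrix.mul_assoc, h1,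
    Matrix.mul_one]

theorem charpoly_up {m : ℕ} (d : Matrix (Fin m) (Fin m) ℂ) (σ : ℂ) (hd : ∀ i j, j < i → d i j = 0)
    (hσ : ∀ i, d i i = σ) : d.charpoly = (Polynomial.X - Polynomial.C σ) ^ m := by
  rw [Matrix.charpoly_of_isUpperTriangular d (fun i j h => hd i j h)]
  simp only [hσ, Finset.prod_const, Finset.card_univ, Fintype.card_fin]

theorem chp_aux {m n : ℕ} (W : Matrix (S m) (Fin n) ℂ) (W' : Matrix (Fin n) (S m) ℂ)
    (h1 : W * W' = 1) (h2 : W' * W = 1) (a : Matrix (Fin n) (Fin n) ℂ)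
    (c b d : Matrix (Fin m) (Fin m) ℂ) (σ : ℂ)
    (hc : ∀ i j, i < j → c i j = 0) (hd : ∀ i j, j < i → d i j = 0)
    (ha : W * a = fromBlocks c 0 b d * W)
    (hσ : ∀ i, c i i = σ ∧ d i i = σ) : a.charpoly = (Polynomial.X - Polynomial.C σ) ^ n := by
  obtain ⟨e1, hn⟩ := charpoly_of_conj W W' h1 h2 a _ ha
  rw [e1, Matrix.charpoly_fromBlocks_zero₁₂, charpoly_up d σ hd (fun i => (hσ i).2),
    ← Matrix.charpoly_transpose c, charpoly_up cᵀ σ (fun i j h => hc j i h) (fun i => (hσ i).1),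
    ← pow_add, hn, two_mul]

end Pool.Agent.Y467.HG
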