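import Pool.Agent.Y119.HG.Defs2
import Pool.Agent.Y467.HG.Adj0

/-!
# The adjoint of an endomorphism; the characteristic polynomial

Jobs HG-ADJ and HG-CHP of helper119, done by helper467.
-/

set_option autoImplicit false

open Matrix

namespace Pool.Agent.Y467.HG

open Pool.Agent.Y119.HG

/-- **HG-ADJ** -/
theorem t_ADJ : T_ADJ := by
  intro m n W W' P Q κ h1 h2 hP hPQ hκ a c b d ha
  rw [adj_aux W W' P Q κ h1 h2 hP hPQ hκ a _ ha, adj_block]

/-- **HG-CHP** -/
theorem t_CHP : T_CHP := by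
  intro m n W W' h1 h2 a c b d σ hc hd ha hσ
  exact chp_aux W W' h1 h2 a c b d σ hc hd ha hσ

end Pool.Agent.Y467.HG
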